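import Pool.Agent.TH682.KA.Tree

/-!
# The amplitudes are polynomials in the oracle
-/

set_option autoImplicit false

namespace Pool.Agent.TH682.KA

open Finset Matrix Pool.Agent.H285R2.PolyCompat

variable {N : ℕ} {X α : Type} (e : X ≃ Fin N)

/-- Functions of the oracle of degree at most `k`. -/
def DX (k : ℕ) (f : (X → Bool) → ℝ) : Prop := (fun y : Fin N → Bool => f fun x => y (e x)) ∈ Deg N k

/-- Complex functions of the oracle of degree at most `k`. -/
def DCx (k : ℕ) (f : (X → Bool) → ℂ) : Prop :=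
  DX e k (fun h => (f h).re) ∧ DX e k (fun h => (f h).im)

variable {e}

lemma DX.mono {k l : ℕ} {f : (X → Bool) → ℝ} (hf : DX e k f) (h : k ≤ l) : DX e l f :=
  Deg_mono h hf

lemma DX.add {k : ℕ} {f g : (X → Bool) → ℝ} (hf : DX e k f) (hg : DX e k g) :
    DX e k (fun h => f h + g h) := Submodule.add_mem _ hf hg

lemma DX.neg {k : ℕ} {f : (X → Bool) → ℝ} (hf : DX e k f) : DX e k (fun h => -f h) :=
  Submodule.neg_mem _ hf

lemma DX.sub {k : ℕ} {f g : (X → Bool) → ℝ} (hf : DX e k f) (hg : DX e k g) :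
    DX e k (fun h => f h - g h) := Submodule.sub_mem _ hf hg

lemma DX.smul {k : ℕ} {f : (X → Bool) → ℝ} (c : ℝ) (hf : DX e k f) :
    DX e k (fun h => c * f h) := Submodule.smul_mem _ c hf

lemma DX.mul {k l : ℕ} {f g : (X → Bool) → ℝ} (hf : DX e k f) (hg : DX e l g) :
    DX e (k + l) (fun h => f h * g h) := Deg_mul hf hg

lemma DX.zero {k : ℕ} : DX e k (fun _ => 0) := Submodule.zero_mem _

lemma DX.sum {ι : Type} (s : Finset ι) {k : ℕ} {f : ι → (X → Bool) → ℝ}
    (hf : ∀ i ∈ s, DX e k (f i)) : DX e k (fun h => ∑ i ∈ s, f i h) := by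
  unfold DX
  have h1 : (fun y : Fin N → Bool => ∑ i ∈ s, f i fun x => y (e x)) =
      ∑ i ∈ s, fun y : Fin N → Bool => f i fun x => y (e x) := by
    funext y
    rw [Finset.sum_apply]
  rw [h1]
  exact Submodule.sum_mem _ hf

lemma DX.const {k : ℕ} (c : ℝ) : DX e k (fun _ => c) := by
  unfold DX
  have h1 : (fun _ : Fin N → Bool => c) = c • chi (∅ : Finset (Fin N)) := by
    funext y
    simp [chi]
  rw [h1]
  exact Submodule.smul_mem _ _ (chi_mem _ (by simp))

lemma DX.sign {k : ℕ} {f : (X → Bool) → ℝ} (hf : DX e k f) (x : X) :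
    DX e (k + 1) (fun h => if h x then -f h else f h) := by
  have h1 : DX e 1 (fun h : X → Bool => sg (h x)) := by
    unfold DX
    have h2 : (fun y : Fin N → Bool => sg (y (e x))) = chi {e x} := by
      funext y
      simp [chi]
    rw [h2]
    exact chi_mem _ (by simp)
  have h2 := hf.mul h1
  have h3 : (fun h : X → Bool => if h x then -f h else f h) = fun h => f h * sg (h x) := by
    funext h
    unfold sg
    split_ifs <;> ring
  rw [h3]
  exact h2

lemma DCx.mono {k l : ℕ} {f : (X → Bool) → ℂ} (hf : DCx e k f) (h : k ≤ l) : DCx e l f :=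
  ⟨hf.1.mono h, hf.2.mono h⟩

lemma DCx.const {k : ℕ} (c : ℂ) : DCx e k (fun _ => c) := ⟨DX.const _, DX.const _⟩

lemma DCx.smul {k : ℕ} {f : (X → Bool) → ℂ} (c : ℂ) (hf : DCx e k f) :
    DCx e k (fun h => c * f h) := by
  refine ⟨?_, ?_⟩
  · simp only [Complex.mul_re]
    exact (hf.1.smul _).sub (hf.2.smul _)
  · simp only [Complex.mul_im]
    exact (hf.2.smul _).add (hf.1.smul _)

lemma DCx.sum {ι : Type} (s : Finset ι) {k : ℕ} {f : ι → (X → Bool) → ℂ}
    (hf : ∀ i ∈ s, DCx e k (f i)) : DCx e k (fun h => ∑ i ∈ s, f i h) := by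
  refine ⟨?_, ?_⟩
  · simp only [Complex.re_sum]
    exact DX.sum s fun i hi => (hf i hi).1
  · simp only [Complex.im_sum]
    exact DX.sum s fun i hi => (hf i hi).2

lemma DCx.mulVec [Fintype α] {k : ℕ} (E : Matrix α α ℂ) {ψ : (X → Bool) → α → ℂ}
    (hψ : ∀ s, DCx e k (fun h => ψ h s)) (s : α) : DCx e k (fun h => (E *ᵥ ψ h) s) := by
  simp only [Matrix.mulVec, dotProduct]
  exact DCx.sum _ fun t _ => (hψ t).smul _

lemma DCx.phase {k : ℕ} (q : α → Option X) {ψ : (X → Bool) → α → ℂ}
    (hψ : ∀ s, DCx e k (fun h => ψ h s)) (s : α) :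
    DCx e (k + 1) (fun h => phase h q (ψ h) s) := by
  unfold KA.phase
  cases hq : q s with
  | none => exact (hψ s).mono (Nat.le_succ k)
  | some x =>
    refine ⟨?_, ?_⟩
    · have h1 := (hψ s).1.sign x
      have h2 : (fun h : X → Bool => (if h x then -ψ h s else ψ h s).re) =
          fun h => if h x then -(ψ h s).re else (ψ h s).re := by
        funext h
        split_ifs <;> simp
      simp only
      rw [h2]
      exact h1
    · have h1 := (hψ s).2.sign x
      have h2 : (fun h : X → Bool => (if h x then -ψ h s else ψ h s).im) =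
          fun h => if h x then -(ψ h s).im else (ψ h s).im := by
        funext h
        split_ifs <;> simp
      simp only
      rw [h2]
      exact h1

lemma DCx.normSq {k : ℕ} {f : (X → Bool) → ℂ} (hf : DCx e k f) :
    DX e (k + k) (fun h => ‖f h‖ ^ 2) := by
  have h1 : (fun h => ‖f h‖ ^ 2) = fun h => (f h).re * (f h).re + (f h).im * (f h).im := by
    funext h
    rw [Complex.sq_norm, Complex.normSq_apply]
  rw [h1]
  exact (hf.1.mul hf.1).add (hf.2.mul hf.2)

end Pool.Agent.TH682.KA
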