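import Pool.Agent.TH682.KA.Amp

/-!
# The attack
-/

set_option autoImplicit false

namespace Pool.Agent.TH682.KA

open Finset Matrix Pool.Agent.H285R2.PolyCompat

/-! ### Probabilities -/

section

variable {X M K L α β : Type} [Fintype M] [Fintype α] [Fintype β]

lemma prob_nonneg (h : X → Bool) (P : Prot X M K L α β) : ∀ (Ev : List M → K → L → Prop)
    (u : α → ℂ) (v : β → ℂ), 0 ≤ P.prob h Ev u v := by
  classical
  induction P with
  | done kA kB =>
    intro Ev u v
    unfold Prot.prob
    refine Finset.sum_nonneg fun a _ => Finset.sum_nonneg fun b _ => ?_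
    split_ifs
    · positivity
    · exact le_rfl
  | askA q next ih => exact fun Ev u v => ih _ _ _
  | askB q next ih => exact fun Ev u v => ih _ _ _
  | sendA r E next ih =>
    exact fun Ev u v => Finset.sum_nonneg fun m _ => Finset.sum_nonneg fun j _ => ih m _ _ _
  | sendB r E next ih =>
    exact fun Ev u v => Finset.sum_nonneg fun m _ => Finset.sum_nonneg fun j _ => ih m _ _ _

lemma prob_mono (h : X → Bool) (P : Prot X M K L α β) : ∀ (Ev Ev' : List M → K → L → Prop)
    (_ : ∀ τ k l, Ev τ k l → Ev' τ k l) (u : α → ℂ) (v : β → ℂ),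
    P.prob h Ev u v ≤ P.prob h Ev' u v := by
  classical
  induction P with
  | done kA kB =>
    intro Ev Ev' hE u v
    unfold Prot.prob
    refine Finset.sum_le_sum fun a _ => Finset.sum_le_sum fun b _ => ?_
    split_ifs with h1 h2
    · exact le_rfl
    · exact absurd (hE _ _ _ h1) h2
    · positivity
    · exact le_rfl
  | askA q next ih => exact fun Ev Ev' hE u v => ih _ _ hE _ _
  | askB q next ih => exact fun Ev Ev' hE u v => ih _ _ hE _ _
  | sendA r E next ih =>
    exact fun Ev Ev' hE u v => Finset.sum_le_sum fun m _ => Finset.sum_le_sum fun j _ =>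
      ih m _ _ (fun τ => hE (m :: τ)) _ _
  | sendB r E next ih =>
    exact fun Ev Ev' hE u v => Finset.sum_le_sum fun m _ => Finset.sum_le_sum fun j _ =>
      ih m _ _ (fun τ => hE (m :: τ)) _ _

lemma prob_compl (h : X → Bool) (P : Prot X M K L α β) : ∀ (Ev : List M → K → L → Prop)
    (u : α → ℂ) (v : β → ℂ), P.prob h Ev u v + P.prob h (fun τ k l => ¬ Ev τ k l) u v =
      P.prob h (fun _ _ _ => True) u v := by
  classical
  induction P with
  | done kA kB =>
    intro Ev u v
    unfold Prot.prob
    rw [← Finset.sum_add_distrib]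
    refine Finset.sum_congr rfl fun a _ => ?_
    rw [← Finset.sum_add_distrib]
    refine Finset.sum_congr rfl fun b _ => ?_
    by_cases h1 : Ev [] (kA a) (kB b) <;> simp [h1]
  | askA q next ih => exact fun Ev u v => ih _ _ _
  | askB q next ih => exact fun Ev u v => ih _ _ _
  | sendA r E next ih =>
    intro Ev u v
    unfold Prot.prob
    rw [← Finset.sum_add_distrib]
    refine Finset.sum_congr rfl fun m _ => ?_
    rw [← Finset.sum_add_distrib]
    exact Finset.sum_congr rfl fun j _ => ih m _ _ _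
  | sendB r E next ih =>
    intro Ev u v
    unfold Prot.prob
    rw [← Finset.sum_add_distrib]
    refine Finset.sum_congr rfl fun m _ => ?_
    rw [← Finset.sum_add_distrib]
    exact Finset.sum_congr rfl fun j _ => ih m _ _ _

lemma prob_union (h : X → Bool) (P : Prot X M K L α β) : ∀ (Ev Ev₁ Ev₂ : List M → K → L → Prop)
    (_ : ∀ τ k l, Ev τ k l → Ev₁ τ k l ∨ Ev₂ τ k l) (u : α → ℂ) (v : β → ℂ),
    P.prob h Ev u v ≤ P.prob h Ev₁ u v + P.prob h Ev₂ u v := by
  classical
  induction P with
  | done kA kB =>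
    intro Ev Ev₁ Ev₂ hE u v
    unfold Prot.prob
    rw [← Finset.sum_add_distrib]
    refine Finset.sum_le_sum fun a _ => ?_
    rw [← Finset.sum_add_distrib]
    refine Finset.sum_le_sum fun b _ => ?_
    have h0 : 0 ≤ ‖u a‖ ^ 2 * ‖v b‖ ^ 2 := by positivity
    by_cases h1 : Ev [] (kA a) (kB b)
    · rcases hE _ _ _ h1 with h2 | h2
      · rw [if_pos h1, if_pos h2]
        split_ifs <;> linarith
      · rw [if_pos h1, if_pos h2]
        split_ifs <;> linarith
    · rw [if_neg h1]
      split_ifs <;> linarith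
  | askA q next ih => exact fun Ev Ev₁ Ev₂ hE u v => ih _ _ _ hE _ _
  | askB q next ih => exact fun Ev Ev₁ Ev₂ hE u v => ih _ _ _ hE _ _
  | sendA r E next ih =>
    intro Ev Ev₁ Ev₂ hE u v
    unfold Prot.prob
    rw [← Finset.sum_add_distrib]
    refine Finset.sum_le_sum fun m _ => ?_
    rw [← Finset.sum_add_distrib]
    exact Finset.sum_le_sum fun j _ => ih m _ _ _ (fun τ => hE (m :: τ)) _ _
  | sendB r E next ih =>
    intro Ev Ev₁ Ev₂ hE u v
    unfold Prot.prob
    rw [← Finset.sum_add_distrib]
    refine Finset.sum_le_sum fun m _ => ?_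
    rw [← Finset.sum_add_distrib]
    exact Finset.sum_le_sum fun j _ => ih m _ _ _ (fun τ => hE (m :: τ)) _ _

lemma phase_norm (h : X → Bool) (q : α → Option X) (u : α → ℂ) :
    ∑ s, ‖phase h q u s‖ ^ 2 = ∑ s, ‖u s‖ ^ 2 := by
  refine Finset.sum_congr rfl fun s _ => ?_
  unfold phase
  cases q s with
  | none => rfl
  | some x =>
    simp only
    split_ifs
    · rw [norm_neg]
    · rfl

lemma kraus_norm [DecidableEq α] {r : ℕ} {E : M → Fin r → Matrix α α ℂ}
    (hE : ∑ m, ∑ j, (E m j)ᴴ * E m j = 1)
    (u : α → ℂ) : ∑ m, ∑ j, ∑ s, ‖(E m j *ᵥ u) s‖ ^ 2 = ∑ s, ‖u s‖ ^ 2 := by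
  have h1 : ∀ w : α → ℂ, ((∑ s, ‖w s‖ ^ 2 : ℝ) : ℂ) = star w ⬝ᵥ w := by
    intro w
    unfold dotProduct
    push_cast
    refine Finset.sum_congr rfl fun s _ => ?_
    rw [Pi.star_apply, Complex.star_def, ← Complex.normSq_eq_conj_mul_self,
      Complex.normSq_eq_norm_sq]
    push_cast
    rfl
  have h2 : ((∑ m, ∑ j, ∑ s, ‖(E m j *ᵥ u) s‖ ^ 2 : ℝ) : ℂ) = ((∑ s, ‖u s‖ ^ 2 : ℝ) : ℂ) := by
    rw [Complex.ofReal_sum]
    have h4 : ∀ m, ((∑ j, ∑ s, ‖(E m j *ᵥ u) s‖ ^ 2 : ℝ) : ℂ) =
        star u ⬝ᵥ ((∑ j, (E m j)ᴴ * E m j) *ᵥ u) := by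
      intro m
      rw [Complex.ofReal_sum, Matrix.sum_mulVec, dotProduct_sum]
      refine Finset.sum_congr rfl fun j _ => ?_
      rw [h1, Matrix.star_mulVec, ← Matrix.dotProduct_mulVec, Matrix.mulVec_mulVec]
    simp only [h4]
    rw [← dotProduct_sum, ← Matrix.sum_mulVec, hE, Matrix.one_mulVec, h1]
  exact_mod_cast h2

lemma prob_total [DecidableEq α] [DecidableEq β] (h : X → Bool) (P : Prot X M K L α β)
    (hP : P.Valid) : ∀ (u : α → ℂ) (v : β → ℂ),
      P.prob h (fun _ _ _ => True) u v = (∑ s, ‖u s‖ ^ 2) * ∑ t, ‖v t‖ ^ 2 := by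
  classical
  induction P with
  | done kA kB =>
    intro u v
    unfold Prot.prob
    rw [Finset.sum_mul_sum]
    simp
  | askA q next ih =>
    intro u v
    unfold Prot.prob
    rw [ih hP, phase_norm]
  | askB q next ih =>
    intro u v
    unfold Prot.prob
    rw [ih hP, phase_norm]
  | sendA r E next ih =>
    intro u v
    unfold Prot.prob
    rw [Finset.sum_congr rfl fun m _ => Finset.sum_congr rfl fun j _ => ih m (hP.2 m) _ _]
    simp only [← Finset.sum_mul]
    rw [kraus_norm hP.1]
  | sendB r E next ih =>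
    intro u v
    unfold Prot.prob
    rw [Finset.sum_congr rfl fun m _ => Finset.sum_congr rfl fun j _ => ih m (hP.2 m) _ _]
    simp only [← Finset.mul_sum]
    rw [kraus_norm hP.1]

end

/-! ### Decision trees over `X` -/

section

variable {X Y K : Type}

/-- Change the names of the points. -/
def DTree.map (f : Y → X) : DTree Y K → DTree X K
  | .leaf k => .leaf k
  | .ask y next => .ask (f y) fun b => (next b).map f

lemma DTree.eval_map (f : Y → X) (h : X → Bool) (T : DTree Y K) :
    (T.map f).eval h = T.eval fun y => h (f y) := by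
  induction T with
  | leaf k => rfl
  | ask y next ih =>
    simp only [DTree.map, DTree.eval]
    exact ih _

lemma DTree.depth_map (f : Y → X) (T : DTree Y K) : (T.map f).depth = T.depth := by
  induction T with
  | leaf k => rfl
  | ask y next ih =>
    simp only [DTree.map, DTree.depth]
    rw [ih, ih]

end

/-! ### The end of the protocol -/

variable {X M K K₁ K₂ α β : Type} [Fintype M] [Fintype α] [Fintype β]
  [Fintype K] [Nonempty K] {N : ℕ}

lemma leaf_tree {I J : Type} [Fintype I] [Fintype J] (e : X ≃ Fin N) (fA : I → α → Option K)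
    (gB : J → β → Option K)
    {a b : ℕ} (u : I → (X → Bool) → α → ℂ) (v : J → (X → Bool) → β → ℂ)
    (hu : ∀ i s, DCx e a (fun h => u i h s)) (hv : ∀ j t, DCx e b (fun h => v j h t))
    (hc : ∀ h i j s t, ‖u i h s‖ ^ 2 * ‖v j h t‖ ^ 2 ≠ 0 → ∀ x y, fA i s = some x →
      gB j t = some y → x = y) :
    ∃ T : DTree X K, T.depth ≤ (2 * (a + b)) ^ 4 ∧
      ∀ h i j s t, ‖u i h s‖ ^ 2 * ‖v j h t‖ ^ 2 ≠ 0 → ∀ x, fA i s = some x → gB j t = some x →
        T.eval h = x := by
  classical
  set F : K → (X → Bool) → ℝ := fun k h => ∑ i, ∑ s, if fA i s = some k then ‖u i h s‖ ^ 2 else 0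
    with hF
  set G : K → (X → Bool) → ℝ := fun k h => ∑ j, ∑ t, if gB j t = some k then ‖v j h t‖ ^ 2 else 0
    with hG
  have hF0 : ∀ k h, 0 ≤ F k h := fun k h => Finset.sum_nonneg fun i _ => Finset.sum_nonneg
    fun s _ => by split_ifs <;> positivity
  have hG0 : ∀ k h, 0 ≤ G k h := fun k h => Finset.sum_nonneg fun i _ => Finset.sum_nonneg
    fun s _ => by split_ifs <;> positivity
  have hFd : ∀ k, DX e (a + a) (F k) := by
    intro k
    refine DX.sum _ fun i _ => DX.sum _ fun s _ => ?_
    by_cases h1 : fA i s = some k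
    · simp only [h1, if_true]
      exact (hu i s).normSq
    · simp only [h1, if_false]
      exact DX.zero
  have hGd : ∀ k, DX e (b + b) (G k) := by
    intro k
    refine DX.sum _ fun i _ => DX.sum _ fun s _ => ?_
    by_cases h1 : gB i s = some k
    · simp only [h1, if_true]
      exact (hv i s).normSq
    · simp only [h1, if_false]
      exact DX.zero
  have hFG : ∀ k l, k ≠ l → ∀ h, F k h * G l h = 0 := by
    intro k l hkl h
    simp only [hF, hG]
    rw [Finset.sum_mul_sum]
    refine Finset.sum_eq_zero fun i _ => Finset.sum_eq_zero fun j _ => ?_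
    rw [Finset.sum_mul_sum]
    refine Finset.sum_eq_zero fun s _ => Finset.sum_eq_zero fun t _ => ?_
    by_cases h1 : fA i s = some k
    · by_cases h2 : gB j t = some l
      · rw [if_pos h1, if_pos h2]
        by_contra hne
        exact hkl (hc h i j s t hne k l h1 h2)
      · rw [if_neg h2, mul_zero]
    · rw [if_neg h1, zero_mul]
  set P : K → (Fin N → Bool) → ℝ := fun k y => F k (fun x => y (e x)) * G k fun x => y (e x)
    with hP
  have hPd : ∀ k, P k ∈ Deg N (2 * (a + b)) := by
    intro k
    have h1 := (hFd k).mul (hGd k)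
    have h2 : a + a + (b + b) = 2 * (a + b) := by ring
    rw [h2] at h1
    exact h1
  obtain ⟨T, hT1, hT2⟩ := exists_tree (2 * (a + b)) le_rfl (Classical.arbitrary K) P (hPd _)
    (fun κ _ => hPd κ) (fun κ y => mul_nonneg (hF0 _ _) (hG0 _ _)) (by
      intro κ κ' hne y
      rw [← mul_eq_zero]
      have h1 := hFG κ κ' hne fun x => y (e x)
      simp only [hP]
      calc _ = (F κ (fun x => y (e x)) * G κ' fun x => y (e x)) *
            (G κ (fun x => y (e x)) * F κ' fun x => y (e x)) := by ring
        _ = 0 := by rw [h1, zero_mul])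
  refine ⟨T.map e.symm, ?_, ?_⟩
  · rw [DTree.depth_map]
    refine hT1.trans (le_of_eq ?_)
    ring
  · intro h i j s t hne x hx1 hx2
    rw [DTree.eval_map]
    refine hT2 x _ ?_
    simp only [hP, Equiv.symm_apply_apply]
    have h1 : 0 < ‖u i h s‖ ^ 2 := lt_of_le_of_ne (by positivity) (left_ne_zero_of_mul hne).symm
    have h2 : 0 < ‖v j h t‖ ^ 2 := lt_of_le_of_ne (by positivity) (right_ne_zero_of_mul hne).symm
    have h3 : 0 < F x h := by
      refine lt_of_lt_of_le h1 ?_
      refine le_trans ?_ (Finset.single_le_sum (f := fun i' => ∑ s', if fA i' s' = some x then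
        ‖u i' h s'‖ ^ 2 else 0) (fun i' _ => Finset.sum_nonneg fun s' _ => by
          split_ifs <;> positivity) (Finset.mem_univ i))
      refine le_trans ?_ (Finset.single_le_sum (f := fun s' => if fA i s' = some x then
        ‖u i h s'‖ ^ 2 else 0) (fun s' _ => by split_ifs <;> positivity) (Finset.mem_univ s))
      simp [hx1]
    have h4 : 0 < G x h := by
      refine lt_of_lt_of_le h2 ?_
      refine le_trans ?_ (Finset.single_le_sum (f := fun j' => ∑ t', if gB j' t' = some x then
        ‖v j' h t'‖ ^ 2 else 0) (fun i' _ => Finset.sum_nonneg fun s' _ => by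
          split_ifs <;> positivity) (Finset.mem_univ j))
      refine le_trans ?_ (Finset.single_le_sum (f := fun t' => if gB j t' = some x then
        ‖v j h t'‖ ^ 2 else 0) (fun s' _ => by split_ifs <;> positivity) (Finset.mem_univ t))
      simp [hx2]
    positivity

/-- The general attack, for finitely many points: if in the end the values
`fA i (output of Alice)` and `gB j (output of Bob)` never are different, then an eavesdropper finds
them. -/
theorem attack (e : X ≃ Fin N) (P : Prot X M K₁ K₂ α β) :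
    ∀ (I J : Type) [Fintype I] [Fintype J] (fA : I → K₁ → Option K) (gB : J → K₂ → Option K)
    (a b : ℕ) (u : I → (X → Bool) → α → ℂ) (v : J → (X → Bool) → β → ℂ),
    (∀ i s, DCx e a (fun h => u i h s)) → (∀ j t, DCx e b (fun h => v j h t)) →
    (∀ h i j, P.prob h (fun _ k l => ∃ x y, fA i k = some x ∧ gB j l = some y ∧ x ≠ y)
      (u i h) (v j h) = 0) →
    ∃ eve : List M → DTree X K, (∀ τ, (eve τ).depth ≤ (2 * (a + b + P.asks)) ^ 4) ∧
      ∀ h i j, P.prob h (fun τ k l => ∃ x, fA i k = some x ∧ gB j l = some x ∧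
        (eve τ).eval h ≠ x) (u i h) (v j h) = 0 := by
  classical
  induction P with
  | done kA kB =>
    intro I J _ _ fA gB a b u v hu hv hc
    obtain ⟨T, hT1, hT2⟩ := leaf_tree e (fun i s => fA i (kA s)) (fun j t => gB j (kB t)) u v
      hu hv (fun h i j s t hne x y hx hy => by
        by_contra hcon
        have h1 := hc h i j
        unfold Prot.prob at h1
        rw [Finset.sum_eq_zero_iff_of_nonneg fun s _ => Finset.sum_nonneg fun t _ => by
          split_ifs <;> positivity] at h1
        have h2 := h1 s (Finset.mem_univ s)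
        rw [Finset.sum_eq_zero_iff_of_nonneg fun t _ => by split_ifs <;> positivity] at h2
        have h3 := h2 t (Finset.mem_univ t)
        rw [if_pos ⟨x, y, hx, hy, hcon⟩] at h3
        exact hne h3)
    refine ⟨fun _ => T, fun _ => by simpa [Prot.asks] using hT1, fun h i j => ?_⟩
    unfold Prot.prob
    refine Finset.sum_eq_zero fun s _ => Finset.sum_eq_zero fun t _ => ?_
    split_ifs with h1
    · by_contra hne
      obtain ⟨x, hx1, hx2, hx3⟩ := h1
      exact hx3 (hT2 h i j s t hne x hx1 hx2)
    · rfl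
  | askA q next ih =>
    intro I J _ _ fA gB a b u v hu hv hc
    obtain ⟨eve, h1, h2⟩ := ih I J fA gB (a + 1) b (fun i h => phase h q (u i h)) v
      (fun i => DCx.phase q (hu i)) hv hc
    refine ⟨eve, fun τ => (h1 τ).trans (le_of_eq ?_), h2⟩
    simp only [Prot.asks]
    ring
  | askB q next ih =>
    intro I J _ _ fA gB a b u v hu hv hc
    obtain ⟨eve, h1, h2⟩ := ih I J fA gB a (b + 1) u (fun j h => phase h q (v j h)) hu
      (fun j => DCx.phase q (hv j)) hc
    refine ⟨eve, fun τ => (h1 τ).trans (le_of_eq ?_), h2⟩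
    simp only [Prot.asks]
    ring
  | sendA r E next ih =>
    intro I J _ _ fA gB a b u v hu hv hc
    have hc' : ∀ m h (i : I × Fin r) j, (next m).prob h (fun _ k l => ∃ x y, fA i.1 k = some x ∧
        gB j l = some y ∧ x ≠ y) (E m i.2 *ᵥ u i.1 h) (v j h) = 0 := by
      intro m h i j
      have h1 := hc h i.1 j
      unfold Prot.prob at h1
      rw [Finset.sum_eq_zero_iff_of_nonneg fun m _ => Finset.sum_nonneg fun j' _ =>
        prob_nonneg h _ _ _ _] at h1
      have h2 := h1 m (Finset.mem_univ m)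
      rw [Finset.sum_eq_zero_iff_of_nonneg fun j' _ => prob_nonneg h _ _ _ _] at h2
      exact h2 i.2 (Finset.mem_univ _)
    choose eve h1 h2 using fun m => ih m (I × Fin r) J (fun i => fA i.1) gB a b
      (fun i h => E m i.2 *ᵥ u i.1 h) v (fun i => DCx.mulVec (E m i.2) (hu i.1)) hv (hc' m)
    refine ⟨fun τ => match τ with
      | [] => .leaf (Classical.arbitrary K)
      | m :: τ' => eve m τ', ?_, fun h i j => ?_⟩
    · rintro (_ | ⟨m, τ⟩)
      · simp [DTree.depth]
      · refine (h1 m τ).trans (Nat.pow_le_pow_left (Nat.mul_le_mul_left 2 ?_) 4)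
        refine Nat.add_le_add_left ?_ _
        simp only [Prot.asks]
        exact Finset.le_sup (f := fun m => (next m).asks) (Finset.mem_univ m)
    · unfold Prot.prob
      exact Finset.sum_eq_zero fun m _ => Finset.sum_eq_zero fun j' _ => h2 m h (i, j') j
  | sendB r E next ih =>
    intro I J _ _ fA gB a b u v hu hv hc
    have hc' : ∀ m h i (j : J × Fin r), (next m).prob h (fun _ k l => ∃ x y, fA i k = some x ∧
        gB j.1 l = some y ∧ x ≠ y) (u i h) (E m j.2 *ᵥ v j.1 h) = 0 := by
      intro m h i j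
      have h1 := hc h i j.1
      unfold Prot.prob at h1
      rw [Finset.sum_eq_zero_iff_of_nonneg fun m _ => Finset.sum_nonneg fun j' _ =>
        prob_nonneg h _ _ _ _] at h1
      have h2 := h1 m (Finset.mem_univ m)
      rw [Finset.sum_eq_zero_iff_of_nonneg fun j' _ => prob_nonneg h _ _ _ _] at h2
      exact h2 j.2 (Finset.mem_univ _)
    choose eve h1 h2 using fun m => ih m I (J × Fin r) fA (fun j => gB j.1) a b u
      (fun j h => E m j.2 *ᵥ v j.1 h) hu (fun j => DCx.mulVec (E m j.2) (hv j.1)) (hc' m)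
    refine ⟨fun τ => match τ with
      | [] => .leaf (Classical.arbitrary K)
      | m :: τ' => eve m τ', ?_, fun h i j => ?_⟩
    · rintro (_ | ⟨m, τ⟩)
      · simp [DTree.depth]
      · refine (h1 m τ).trans (Nat.pow_le_pow_left (Nat.mul_le_mul_left 2 ?_) 4)
        refine Nat.add_le_add_left ?_ _
        simp only [Prot.asks]
        exact Finset.le_sup (f := fun m => (next m).asks) (Finset.mem_univ m)
    · unfold Prot.prob
      exact Finset.sum_eq_zero fun m _ => Finset.sum_eq_zero fun j' _ => h2 m h i (j, j')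

end Pool.Agent.TH682.KA
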