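import Mathlib

/-!
# Protocols of two quantum computers with classical communication and an oracle

Two parties, Alice and Bob, have quantum computers with finite-dimensional memories (the basis
states of Alice's memory are the elements of `α`, those of Bob's memory are the elements of `β`);
in the beginning their memories are in the pure states `u` and `v`, without entanglement. They ask
questions to an oracle `h : X → Bool` in superposition, measure, and send classical messages.
-/

set_option autoImplicit false

namespace Pool.Agent.TH682.KA

open Matrix

/-- A classical adaptive procedure which asks the oracle (one point of `X` per question) and ends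
with an element of `K`. -/
inductive DTree (X K : Type) : Type
  | leaf (k : K) : DTree X K
  | ask (x : X) (next : Bool → DTree X K) : DTree X K

/-- The result for the oracle `h`. -/
def DTree.eval {X K : Type} (h : X → Bool) : DTree X K → K
  | .leaf k => k
  | .ask x next => (next (h x)).eval h

/-- The number of questions, in the worst case. -/
def DTree.depth {X K : Type} : DTree X K → ℕ
  | .leaf _ => 0
  | .ask _ next => max (next false).depth (next true).depth + 1

/-- A protocol of two quantum computers. In the end Alice measures her memory (in the standard
basis) and has the output `kA`, and Bob has the output `kB`. The other steps are: a question of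
Alice to the oracle, at the point `q s` if her memory is in the basis state `s` (no question if
`q s = none`); the same for Bob; an arbitrary operation of Alice on her memory (a quantum
instrument): a measurement, given by the Kraus operators `E m j`, whose result `m` is sent to Bob,
whereas `j` is not recorded; the same for Bob. (Arbitrary unitary operations, and operations which
do not send anything, are the case in which only one message `m` is possible; everything that a
party wants to remember is a part of the memory.) What happens next may depend on all messages. -/
inductive Prot (X M K L α β : Type) : Type
  | done (kA : α → K) (kB : β → L) : Prot X M K L α β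
  | askA (q : α → Option X) (next : Prot X M K L α β) : Prot X M K L α β
  | askB (q : β → Option X) (next : Prot X M K L α β) : Prot X M K L α β
  | sendA (r : ℕ) (E : M → Fin r → Matrix α α ℂ) (next : M → Prot X M K L α β) :
      Prot X M K L α β
  | sendB (r : ℕ) (E : M → Fin r → Matrix β β ℂ) (next : M → Prot X M K L α β) :
      Prot X M K L α β

/-- A question to the oracle: the amplitude of the basis state `s` is multiplied by `(-1) ^ h (q s)`.
(The operation which adds the answer to a qubit of the memory is the same, up to Hadamard
transforms of this qubit.) -/
def phase {X α : Type} (h : X → Bool) (q : α → Option X) (ψ : α → ℂ) : α → ℂ := fun s =>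
  match q s with
  | none => ψ s
  | some x => if h x then -ψ s else ψ s

variable {X M K L α β : Type}

/-- All operations are quantum instruments: the Kraus operators satisfy `∑ E† E = 1`. -/
def Prot.Valid [Fintype M] [Fintype α] [Fintype β] [DecidableEq α] [DecidableEq β] :
    Prot X M K L α β → Prop
  | .done _ _ => True
  | .askA _ next => next.Valid
  | .askB _ next => next.Valid
  | .sendA _ E next => ∑ m, ∑ j, (E m j)ᴴ * E m j = 1 ∧ ∀ m, (next m).Valid
  | .sendB _ E next => ∑ m, ∑ j, (E m j)ᴴ * E m j = 1 ∧ ∀ m, (next m).Valid

/-- The number of questions of both parties together, in the worst case. -/
def Prot.asks [Fintype M] : Prot X M K L α β → ℕ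
  | .done _ _ => 0
  | .askA _ next => next.asks + 1
  | .askB _ next => next.asks + 1
  | .sendA _ _ next => Finset.univ.sup fun m => (next m).asks
  | .sendB _ _ next => Finset.univ.sup fun m => (next m).asks

open Classical in
/-- The probability that `Ev` holds for the messages (in the order in which they are sent), for
Alice's output and for Bob's output, with the oracle `h` and the initial states `u`, `v`. -/
noncomputable def Prot.prob [Fintype M] [Fintype α] [Fintype β] (h : X → Bool) :
    Prot X M K L α β → (List M → K → L → Prop) → (α → ℂ) → (β → ℂ) → ℝ
  | .done kA kB, Ev, u, v =>
      ∑ a, ∑ b, if Ev [] (kA a) (kB b) then ‖u a‖ ^ 2 * ‖v b‖ ^ 2 else 0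
  | .askA q next, Ev, u, v => next.prob h Ev (phase h q u) v
  | .askB q next, Ev, u, v => next.prob h Ev u (phase h q v)
  | .sendA _ E next, Ev, u, v =>
      ∑ m, ∑ j, (next m).prob h (fun τ => Ev (m :: τ)) (E m j *ᵥ u) v
  | .sendB _ E next, Ev, u, v =>
      ∑ m, ∑ j, (next m).prob h (fun τ => Ev (m :: τ)) u (E m j *ᵥ v)

end Pool.Agent.TH682.KA
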