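import Pool.Agent.TH682.KA.Attack

/-!
# The attack, for arbitrary sets of points, and its applications
-/

set_option autoImplicit false

namespace Pool.Agent.TH682.KA

open Matrix

section

variable {X M K L α β : Type}

/-- The points which are asked. -/
def Prot.pts : Prot X M K L α β → Set X
  | .done _ _ => ∅
  | .askA q next => {x | ∃ s, q s = some x} ∪ next.pts
  | .askB q next => {x | ∃ s, q s = some x} ∪ next.pts
  | .sendA _ _ next => ⋃ m, (next m).pts
  | .sendB _ _ next => ⋃ m, (next m).pts

lemma q_finite {α : Type} [Finite α] (q : α → Option X) : {x | ∃ s, q s = some x}.Finite := by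
  have h1 : (some '' {x | ∃ s, q s = some x}).Finite := by
    refine (Set.finite_range q).subset ?_
    rintro _ ⟨x, ⟨s, hs⟩, rfl⟩
    exact ⟨s, hs⟩
  exact Set.Finite.of_finite_image h1 (Option.some_injective X).injOn

lemma pts_finite [Finite M] [Finite α] [Finite β] (P : Prot X M K L α β) : P.pts.Finite := by
  induction P with
  | done kA kB => exact Set.finite_empty
  | askA q next ih => exact (q_finite q).union ih
  | askB q next ih => exact (q_finite q).union ih
  | sendA r E next ih => exact Set.finite_iUnion ih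
  | sendB r E next ih => exact Set.finite_iUnion ih

open Classical in
/-- The protocol on a subset of the points. -/
noncomputable def Prot.restr (S : Set X) : Prot X M K L α β → Prot S M K L α β
  | .done kA kB => .done kA kB
  | .askA q next => .askA (fun s => (q s).bind fun x =>
      if hx : x ∈ S then some ⟨x, hx⟩ else none) (next.restr S)
  | .askB q next => .askB (fun s => (q s).bind fun x =>
      if hx : x ∈ S then some ⟨x, hx⟩ else none) (next.restr S)
  | .sendA r E next => .sendA r E fun m => (next m).restr S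
  | .sendB r E next => .sendB r E fun m => (next m).restr S

lemma asks_restr [Fintype M] (S : Set X) (P : Prot X M K L α β) : (P.restr S).asks = P.asks := by
  induction P with
  | done kA kB => rfl
  | askA q next ih => simp only [Prot.restr, Prot.asks, ih]
  | askB q next ih => simp only [Prot.restr, Prot.asks, ih]
  | sendA r E next ih => simp only [Prot.restr, Prot.asks, ih]
  | sendB r E next ih => simp only [Prot.restr, Prot.asks, ih]

open Classical in
lemma phase_restr {α : Type} (S : Set X) (h : X → Bool) (q : α → Option X)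
    (hq : {x | ∃ s, q s = some x} ⊆ S) (ψ : α → ℂ) :
    phase (fun x : S => h x) (fun s => (q s).bind fun x =>
      if hx : x ∈ S then some (⟨x, hx⟩ : S) else none) ψ = phase h q ψ := by
  funext s
  unfold phase
  cases hs : q s with
  | none => simp [hs]
  | some x =>
    have hx : x ∈ S := hq ⟨s, hs⟩
    simp [hs, hx]

lemma prob_restr [Fintype M] [Fintype α] [Fintype β] (S : Set X) (h : X → Bool)
    (P : Prot X M K L α β) : P.pts ⊆ S → ∀ (Ev : List M → K → L → Prop) (u : α → ℂ) (v : β → ℂ),
      (P.restr S).prob (fun x : S => h x) Ev u v = P.prob h Ev u v := by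
  classical
  induction P with
  | done kA kB => exact fun _ Ev u v => rfl
  | askA q next ih =>
    intro hS Ev u v
    simp only [Prot.restr, Prot.prob]
    rw [phase_restr S h q (Set.subset_union_left.trans hS),
      ih (Set.subset_union_right.trans hS)]
  | askB q next ih =>
    intro hS Ev u v
    simp only [Prot.restr, Prot.prob]
    rw [phase_restr S h q (Set.subset_union_left.trans hS),
      ih (Set.subset_union_right.trans hS)]
  | sendA r E next ih =>
    intro hS Ev u v
    simp only [Prot.restr, Prot.prob]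
    exact Finset.sum_congr rfl fun m _ => Finset.sum_congr rfl fun j _ =>
      ih m ((Set.subset_iUnion _ m).trans hS) _ _ _
  | sendB r E next ih =>
    intro hS Ev u v
    simp only [Prot.restr, Prot.prob]
    exact Finset.sum_congr rfl fun m _ => Finset.sum_congr rfl fun j _ =>
      ih m ((Set.subset_iUnion _ m).trans hS) _ _ _

end

variable {X M K K₁ K₂ α β : Type} [Fintype M] [Fintype α] [Fintype β] [Fintype K] [Nonempty K]

/-- The general attack. -/
theorem attack' (P : Prot X M K₁ K₂ α β) {I J : Type} [Fintype I] [Fintype J]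
    (fA : I → K₁ → Option K) (gB : J → K₂ → Option K) (u : I → α → ℂ) (v : J → β → ℂ)
    (hc : ∀ h i j, P.prob h (fun _ k l => ∃ x y, fA i k = some x ∧ gB j l = some y ∧ x ≠ y)
      (u i) (v j) = 0) :
    ∃ eve : List M → DTree X K, (∀ τ, (eve τ).depth ≤ (2 * P.asks) ^ 4) ∧
      ∀ h i j, P.prob h (fun τ k l => ∃ x, fA i k = some x ∧ gB j l = some x ∧
        (eve τ).eval h ≠ x) (u i) (v j) = 0 := by
  classical
  set S := P.pts with hS
  have : Fintype S := (pts_finite P).fintype
  obtain ⟨eve, h1, h2⟩ := attack (Fintype.equivFin S) (P.restr S) I J fA gB 0 0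
    (fun i _ => u i) (fun j _ => v j) (fun i s => DCx.const _) (fun j t => DCx.const _) (by
      intro h i j
      have h3 := hc (fun x => if hx : x ∈ S then h ⟨x, hx⟩ else false) i j
      rw [← prob_restr S _ P subset_rfl] at h3
      have h4 : (fun x : S => (if hx : (x : X) ∈ S then h ⟨x, hx⟩ else false)) = h := by
        funext x
        simp
      rw [h4] at h3
      exact h3)
  refine ⟨fun τ => (eve τ).map Subtype.val, fun τ => ?_, fun h i j => ?_⟩
  · rw [DTree.depth_map]
    have h3 := h1 τ
    rw [asks_restr] at h3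
    simpa using h3
  · have h3 := h2 (fun x => h x) i j
    rw [prob_restr S h P subset_rfl] at h3
    simpa only [DTree.eval_map] using h3

/-- Events of probability one. -/
theorem prob_one_iff [DecidableEq α] [DecidableEq β] {P : Prot X M K₁ K₂ α β} (hP : P.Valid)
    (h : X → Bool) (Ev : List M → K₁ → K₂ → Prop) {u : α → ℂ} {v : β → ℂ}
    (hu : ∑ s, ‖u s‖ ^ 2 = 1) (hv : ∑ t, ‖v t‖ ^ 2 = 1) :
    P.prob h Ev u v = 1 ↔ P.prob h (fun τ k l => ¬ Ev τ k l) u v = 0 := by
  have h1 := prob_compl h P Ev u v
  rw [prob_total h P hP, hu, hv, mul_one] at h1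
  constructor <;> intro h2 <;> linarith

/-- Key agreement without errors: if Alice and Bob never have different keys (with `none` a party
rejects), then the eavesdropper knows the key whenever they have one. -/
theorem key_agreement (P : Prot X M (Option K) (Option K) α β) (u : α → ℂ) (v : β → ℂ)
    (hc : ∀ h, P.prob h (fun _ k l => ∃ x y, k = some x ∧ l = some y ∧ x ≠ y) u v = 0) :
    ∃ eve : List M → DTree X K, (∀ τ, (eve τ).depth ≤ (2 * P.asks) ^ 4) ∧
      ∀ h, P.prob h (fun τ k l => ∃ x, k = some x ∧ l = some x ∧ (eve τ).eval h ≠ x) u v = 0 := by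
  obtain ⟨eve, h1, h2⟩ := attack' (I := Unit) (J := Unit) P (fun _ k => k) (fun _ l => l)
    (fun _ => u) (fun _ => v) (fun h _ _ => hc h)
  exact ⟨eve, h1, fun h => h2 h () ()⟩

/-- Secret transmission without errors (for instance public-key encryption: Alice generates the
keys and sends the public key, Bob encrypts the message `x`, Alice decrypts). -/
theorem transmission (P : Prot X M (Option K) K₂ α β) (u : α → ℂ) (v : K → β → ℂ)
    (hc : ∀ h x, P.prob h (fun _ k _ => ∃ y, k = some y ∧ y ≠ x) u (v x) = 0) :
    ∃ eve : List M → DTree X K, (∀ τ, (eve τ).depth ≤ (2 * P.asks) ^ 4) ∧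
      ∀ h x, P.prob h (fun τ k _ => k = some x ∧ (eve τ).eval h ≠ x) u (v x) = 0 := by
  obtain ⟨eve, h1, h2⟩ := attack' (I := Unit) (J := K) P (fun _ k => k) (fun x _ => some x)
    (fun _ => u) v (fun h _ x => by
      refine le_antisymm ?_ (prob_nonneg _ _ _ _ _)
      refine (prob_mono h P _ _ ?_ _ _).trans (hc h x).le
      rintro τ k l ⟨y, z, hy, hz, hyz⟩
      rw [Option.some.injEq] at hz
      subst hz
      exact ⟨y, hy, hyz⟩)
  refine ⟨eve, h1, fun h x => ?_⟩
  refine le_antisymm ?_ (prob_nonneg _ _ _ _ _)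
  refine (prob_mono h P _ _ ?_ _ _).trans (h2 h () x).le
  rintro τ k l ⟨hk, hx⟩
  exact ⟨x, hk, rfl, hx⟩

/-- Oblivious transfer without errors. -/
theorem oblivious [DecidableEq α] [DecidableEq β] (P : Prot X M K₁ Bool α β) (hP : P.Valid)
    (u : (Bool → Bool) → α → ℂ) (v : Bool → β → ℂ) (hu : ∀ b, ∑ s, ‖u b s‖ ^ 2 = 1)
    (hv : ∀ c, ∑ t, ‖v c t‖ ^ 2 = 1)
    (hc : ∀ h b c, P.prob h (fun _ _ l => l = b c) (u b) (v c) = 1) :
    ∃ T : Bool → List M → DTree X Bool, (∀ c τ, (T c τ).depth ≤ (2 * P.asks) ^ 4) ∧
      ∀ h b c, P.prob h (fun τ _ _ => (T c τ).eval h = b c) (u b) (v c) = 1 ∧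
        1 - P.prob h (fun τ _ l => l = b (!c) ∧ (T c τ).eval h = b c) (u b) (v (!c)) ≤
          P.prob h (fun τ _ _ => (T c τ).eval h = b c) (u b) (v c) -
          P.prob h (fun τ _ _ => (T c τ).eval h = b c) (u b) (v (!c)) := by
  have key : ∀ c : Bool, ∃ T : List M → DTree X Bool, (∀ τ, (T τ).depth ≤ (2 * P.asks) ^ 4) ∧
      ∀ h b, P.prob h (fun τ _ _ => (T τ).eval h = b c) (u b) (v c) = 1 := by
    intro c
    obtain ⟨T, h1, h2⟩ := attack' (K := Bool) (I := Bool → Bool) (J := Unit) P
      (fun b _ => some (b c)) (fun _ l => some l) u (fun _ => v c) (fun h b _ => by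
        have h3 := (prob_one_iff hP h _ (hu b) (hv c)).1 (hc h b c)
        refine le_antisymm ?_ (prob_nonneg _ _ _ _ _)
        refine (prob_mono h P _ _ ?_ _ _).trans h3.le
        rintro τ k l ⟨x, y, hx, hy, hxy⟩ hl
        rw [Option.some.injEq] at hx hy
        subst hx hy
        exact hxy hl.symm)
    refine ⟨T, h1, fun h b => ?_⟩
    have h3 := (prob_one_iff hP h _ (hu b) (hv c)).1 (hc h b c)
    rw [prob_one_iff hP h _ (hu b) (hv c)]
    have h4 := h2 h b ()
    refine le_antisymm ?_ (prob_nonneg _ _ _ _ _)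
    -- split according to whether Bob's output is right
    have h5 : P.prob h (fun τ _ _ => ¬ (T τ).eval h = b c) (u b) (v c) ≤
        P.prob h (fun τ k l => ∃ x, some (b c) = some x ∧ some l = some x ∧
          (T τ).eval h ≠ x) (u b) (v c) + P.prob h (fun _ _ l => ¬ l = b c) (u b) (v c) :=
      prob_union h P _ _ _ (fun τ k l hn => by
        by_cases hl : l = b c
        · left
          exact ⟨b c, rfl, by rw [hl], hn⟩
        · right
          exact hl) _ _
    linarith
  choose T h1 h2 using key
  refine ⟨T, h1, fun h b c => ⟨h2 c h b, ?_⟩⟩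
  rw [h2 c h b]
  have h3 := (prob_one_iff hP h _ (hu b) (hv (!c))).1 (hc h b (!c))
  have h4 : P.prob h (fun τ _ _ => (T c τ).eval h = b c) (u b) (v (!c)) ≤
      P.prob h (fun τ _ l => l = b (!c) ∧ (T c τ).eval h = b c) (u b) (v (!c)) +
      P.prob h (fun _ _ l => ¬ l = b (!c)) (u b) (v (!c)) :=
    prob_union h P _ _ _ (fun τ k l hn => by
      by_cases hl : l = b (!c)
      · left
        exact ⟨hl, hn⟩
      · right
        exact hl) _ _
  linarith

end Pool.Agent.TH682.KA
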