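import Pool.Agent.TH682.KA.Defs
import Pool.Agent.H285R2.PolyCompat3

/-!
# Decision trees for families of nonnegative polynomials with disjoint supports
-/

set_option autoImplicit false

namespace Pool.Agent.TH682.KA

open Finset Pool.Agent.H285R2.PolyCompat

variable {N : ℕ} {K : Type}

/-- Ask all points of the list. -/
def askAll (F : (Fin N → Bool) → DTree (Fin N) K) : List (Fin N) → (Fin N → Bool) → DTree (Fin N) K
  | [], r => F r
  | i :: L, r => .ask i fun b => askAll F L (Function.update r i b)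

lemma eval_askAll (F : (Fin N → Bool) → DTree (Fin N) K) (y : Fin N → Bool) :
    ∀ (L : List (Fin N)) (r : Fin N → Bool),
      (askAll F L r).eval y = (F fun i => if i ∈ L then y i else r i).eval y
  | [], r => by simp [askAll]
  | i :: L, r => by
    simp only [askAll, DTree.eval]
    rw [eval_askAll F y L]
    congr 2
    funext j
    by_cases hj : j = i
    · subst hj
      by_cases hL : j ∈ L <;> simp [hL]
    · simp [hj]

lemma depth_askAll (F : (Fin N → Bool) → DTree (Fin N) K) {D : ℕ} (hF : ∀ r, (F r).depth ≤ D) :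
    ∀ (L : List (Fin N)) (r : Fin N → Bool), (askAll F L r).depth ≤ L.length + D
  | [], r => by simpa [askAll] using hF r
  | i :: L, r => by
    simp only [askAll, DTree.depth, List.length_cons]
    have h1 := depth_askAll F hF L (Function.update r i false)
    have h2 := depth_askAll F hF L (Function.update r i true)
    omega

lemma exists_tree [Fintype K] [DecidableEq K] {k : ℕ} (l : ℕ) (hl : l ≤ k) :
    ∀ (κ₀ : K) (P : K → (Fin N → Bool) → ℝ), P κ₀ ∈ Deg N k → (∀ κ, κ ≠ κ₀ → P κ ∈ Deg N l) →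
    (∀ κ y, 0 ≤ P κ y) → (∀ κ κ', κ ≠ κ' → ∀ y, P κ y = 0 ∨ P κ' y = 0) →
    ∃ T : DTree (Fin N) K, T.depth ≤ k ^ 2 * l * l ∧ ∀ κ y, P κ y ≠ 0 → T.eval y = κ := by
  induction l with
  | zero =>
    intro κ₀ P hP0 hP hnn hd
    by_cases hz : ∃ κ, κ ≠ κ₀ ∧ ∃ y, P κ y ≠ 0
    · obtain ⟨κ₁, h1, y₁, hy₁⟩ := hz
      obtain ⟨c, hc⟩ := Deg_zero (hP κ₁ h1)
      refine ⟨.leaf κ₁, by simp [DTree.depth], fun κ y hy => ?_⟩
      by_contra hne
      rcases hd κ κ₁ (fun h => hne h.symm) y with h | h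
      · exact hy h
      · rw [hc, ← hc y₁] at h
        exact hy₁ h
    · push Not at hz
      refine ⟨.leaf κ₀, by simp [DTree.depth], fun κ y hy => ?_⟩
      by_contra hne
      exact hy (hz κ (fun h => hne h.symm) y)
  | succ l ih =>
    -- first the case in which `P κ₀` is not zero
    have main : ∀ (κ₀ : K) (P : K → (Fin N → Bool) → ℝ), P κ₀ ∈ Deg N k →
        (∀ κ, κ ≠ κ₀ → P κ ∈ Deg N (l + 1)) →
        (∀ κ y, 0 ≤ P κ y) → (∀ κ κ', κ ≠ κ' → ∀ y, P κ y = 0 ∨ P κ' y = 0) →
        (∃ y, P κ₀ y ≠ 0) → ∃ T : DTree (Fin N) K, T.depth ≤ k ^ 2 * (l + 1) * (l + 1) ∧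
          ∀ κ y, P κ y ≠ 0 → T.eval y = κ := by
      rintro κ₀ P hP0 hP hnn hd ⟨y0, hy0⟩
      set Q : (Fin N → Bool) → ℝ := ∑ κ ∈ univ.erase κ₀, P κ with hQ
      have hQy : ∀ y, Q y = ∑ κ ∈ univ.erase κ₀, P κ y := fun y => by
        rw [hQ, Finset.sum_apply]
      have hQmem : Q ∈ Deg N (l + 1) :=
        Submodule.sum_mem _ fun κ hκ => hP κ (Finset.ne_of_mem_erase hκ)
      obtain ⟨x, -, hx⟩ := Finset.exists_max_image Finset.univ (P κ₀) ⟨y0, Finset.mem_univ _⟩
      have hmax : ∀ y, P κ₀ y ≤ P κ₀ x := fun y => hx y (Finset.mem_univ _)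
      have hpos : 0 < P κ₀ x :=
        lt_of_lt_of_le (lt_of_le_of_ne (hnn κ₀ y0) (Ne.symm hy0)) (hmax y0)
      have hPQ : ∀ y, P κ₀ y = 0 ∨ Q y = 0 := by
        intro y
        by_cases h : P κ₀ y = 0
        · exact Or.inl h
        · right
          rw [hQy]
          exact Finset.sum_eq_zero fun κ hκ =>
            ((hd κ κ₀ (Finset.ne_of_mem_erase hκ) y).resolve_right h)
      obtain ⟨S, hS, hSQ⟩ := block_lemma hP0 hQmem (hnn κ₀) x hmax hpos hPQ
      have hSP : ∀ κ, κ ≠ κ₀ → ∀ y, (∀ i ∈ S, y i = x i) → P κ y = 0 := by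
        intro κ hκ y hy
        have h1 := hSQ y hy
        rw [hQy, Finset.sum_eq_zero_iff_of_nonneg fun κ _ => hnn κ y] at h1
        exact h1 κ (Finset.mem_erase.2 ⟨hκ, Finset.mem_univ _⟩)
      have hrec : ∀ r : Fin N → Bool, ∃ T : DTree (Fin N) K, T.depth ≤ k ^ 2 * l * l ∧
          ∀ κ y, P κ (ovr S r y) ≠ 0 → T.eval y = κ := by
        intro r
        refine ih (by omega) κ₀ (fun κ y => P κ (ovr S r y)) (Deg_ovr hP0 S r) ?_
          (fun κ y => hnn κ _) (fun κ κ' h y => hd κ κ' h _)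
        intro κ hκ
        have h1 := Deg_ovr_sub (hP κ hκ) S r x
        have h2 : (fun y => P κ (ovr S r y) - P κ (ovr S x y)) = fun y => P κ (ovr S r y) := by
          funext y
          rw [hSP κ hκ (ovr S x y) (fun i hi => by simp [ovr, hi]), sub_zero]
        rwa [h2] at h1
      choose F hF1 hF2 using hrec
      refine ⟨askAll F S.toList fun _ => false, ?_, fun κ y hy => ?_⟩
      · refine (depth_askAll F hF1 _ _).trans ?_
        rw [Finset.length_toList]
        calc S.card + k ^ 2 * l * l ≤ k ^ 2 * (l + 1) + k ^ 2 * l * l := by omega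
          _ ≤ k ^ 2 * (l + 1) * (l + 1) := by nlinarith [Nat.zero_le (k ^ 2 * l)]
      · rw [eval_askAll]
        refine hF2 _ κ y ?_
        have h2 : ovr S (fun i => if i ∈ S.toList then y i else false) y = y := by
          funext i
          unfold ovr
          by_cases hi : i ∈ S <;> simp [hi]
        rwa [h2]
    intro κ₀ P hP0 hP hnn hd
    by_cases h0 : ∃ y, P κ₀ y ≠ 0
    · exact main κ₀ P hP0 hP hnn hd h0
    · push Not at h0
      by_cases hz : ∃ κ, ∃ y, P κ y ≠ 0
      · obtain ⟨κ₁, h1⟩ := hz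
        have hne : κ₁ ≠ κ₀ := by
          rintro rfl
          obtain ⟨y, hy⟩ := h1
          exact hy (h0 y)
        refine main κ₁ P (Deg_mono hl (hP κ₁ hne)) (fun κ hκ => ?_) hnn hd h1
        by_cases hκ₀ : κ = κ₀
        · have : P κ = 0 := by
            funext y
            rw [hκ₀]
            exact h0 y
          rw [this]
          exact Submodule.zero_mem _
        · exact hP κ hκ₀
      · push Not at hz
        exact ⟨.leaf κ₀, by simp [DTree.depth], fun κ y hy => absurd (hz κ y) hy⟩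

end Pool.Agent.TH682.KA
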